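import Mathlib
import Pool.Agent.Q64.HC.Thms

/-!
# The noncommutative Hodge conjecture for the products of all admissible subcategories with the
abelian varieties of almost all CM types of all CM fields

Let `E i` (`i` in a finite set) be CM fields of degree `2 g i`. Nothing is assumed about their
Galois groups. They are pairwise independent: for `i ≠ k` and all complex embeddings `φ` of `E i`
and `ψ` of `E k` some automorphism of `ℂ` is the identity on `φ (E i)` and the complex conjugation
on `ψ (E k)` (this is no condition if there is only one field). There are `2 ^ (∑ i, g i)` families
of CM types `Φ i` of the fields `E i`. A family is exceptional (`exceptionalFamilies`) if the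
following statement is false for it. Let `A` be any product of copies of the abelian varieties of
CM types `(E i, Φ i)`, and let `C` be **any** admissible subcategory of the derived category of any
smooth proper complex variety `Y` which is unrelated to the fields `E i` (see below), for instance
one which is not equivalent to the derived category of a variety. Let `perf (A) ⊠ C` be the
admissible subcategory of the derived category of `A × Y` given by `C`. **Every rational Hodge
class in `K_0^top (perf (A) ⊠ C)` is a sum of products `f ⊗ x` of a combination `f` of products of
divisor classes on `A` and a Hodge class `x` in `K_0^top (C)`. So the noncommutative Hodge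
conjecture for `perf (A) ⊠ C` is equivalent to the noncommutative Hodge conjecture for `C`; and if
it holds for `C` then it holds for all admissible subcategories of `perf (A) ⊠ C`**
(`NoncommutativeTimes`). For instance it holds for `perf (A) ⊠ C` for all unrelated components `C`
of the derived categories of varieties of dimension at most three.

The condition on `C` (`UnrelatedHodge`). Let `w ≠ 0` be a vector in `K_0^top (C) ⊗ ℂ` or
`K_1^top (C) ⊗ ℂ` such that for each automorphism `σ` of `ℂ` the conjugate `σ w` is of pure type: a
sum of classes of types `(p, q)` with `p - q = d σ`. The condition is that for all such `w` a
function `n` on the complex embeddings of `E i` with `n (conj φ) = - n φ` which is invariant under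
all automorphisms `τ` of `ℂ` with `d (σ τ) = d σ` for all `σ` is zero. The vectors `w` span a
sub-Hodge structure with complex multiplication, and the condition is void for the vectors with
`d = 0`. So it is true if `K^top (C)` has no sub-Hodge structures with complex multiplication other
than those of type zero, or if the compositum of the fields of multiplication of these is linearly
disjoint from the normal closures of the `E i`. It is also true if the ranks of `K_0^top (C)` and
`K_1^top (C)` are less than `2 * dim S` for all nonzero spaces `S` of functions `n` with
`n (conj φ) = - n φ` that are stable under the automorphisms of `ℂ` (`BettiCriterion` of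
MP_e12fcd_ag.AllCMFieldsTimes, with the degrees zero and one): for a generic CM field `E` the
theorem is about **all admissible subcategories `C` with K-groups of rank less than `2 g`**, for
instance the Kuznetsov components of cubic fourfolds if `g > 12`.

Nothing is known about the noncommutative Hodge conjecture for `C` in general, and nothing is
assumed.

The Hodge structure of `K^top (C) ⊗ ℚ`, the sum of `K_0^top` (of weight zero) and `K_1^top` (of
weight one), is given by `V : Coh v`, a rational space with a basis of homogeneous elements and the
Hodge operator `V.z`, which is the multiplication by `p - q`; by the Künneth formula the one of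
`perf (A) ⊠ C` is `HAZ W v`, the forms on the homology `W` of `A` with values in `ℚ ^ v`
(`IsHodgeOnProduct` says that a class is a Hodge class). The spans of the classes of objects are
given by `ObjectClasses`; the two properties used are that the exterior product of a vector bundle
on `A` and an object of `C` is an object of `perf (A) ⊠ C`, and that its objects can be restricted
to a point of `A`.

The theorem bounds the number of the exceptional families of CM types: it is at most
`2 ^ (∑ i, g i) * ∑ i, C * (1 + log (2 g i)) ^ 16 * min (N ^ 2 * D ^ (1 / 4) / √g) (√g / p)` with
an absolute constant `C`. Here, for `E = E i` and `g = g i`, `N` is the number of the CM subfields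
of `E` (with `E`), `D = D i ≥ 1` is a bound for the degrees of the CM subfields of `E` that are
normal over `ℚ` with a nonabelian Galois group, and `p = p i` is any prime factor of `g` (or
`p = 1`). So the exceptional types are a proportion `O (g ^ (-1 / 4) * (log g) ^ 16)` of all types
of all CM fields with a bounded number of CM subfields, and `O (g ^ (-1 / 2) * (log g) ^ 16)` if
the normal nonabelian ones have bounded degrees. Some assumption is necessary: almost all types of
a multiquadratic CM field are degenerate. The counting part, and the theorem on the Hodge classes
on `A × Z` for varieties `Z`, are those of `AllCMFieldsTimes` (MP_e12fcd_ag, starting files).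

Relation to other results of this team on this problem (this folder): `CMProducts` is about the
products of categories with Hodge structures of K3 type with complex multiplication by fields which
meet in real numbers; here the factor `C` is arbitrary, but the statement is about almost all
types.

The proof. A Hodge class on the product is, over the complex numbers, a sum of products of
monomials of eigenforms of the fields `E i` on `A` and vectors `w` of `K^top (C) ⊗ ℂ`. All
conjugates of `w` are of pure type, and the types are determined by the monomial and the CM types.
If the CM types are not degenerate then the exponents of the monomial are invariant under the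
automorphisms which do not change the types of `w`, so that they are balanced, as `C` is unrelated.
So the class is a combination of products of divisor classes and Hodge classes; the exterior
products of vector bundles and objects of `C` are objects of the product, and conversely an object
of the product can be restricted to a point.
-/

set_option autoImplicit false

namespace Pool.Agent.Results.MP_43e44c_ag.AllCMTypesTimes

open NumberField Module Finset Pool.Agent.H204R3.CM Pool.Agent.H977R3.CM Pool.Agent.Y1.KN
  Pool.Agent.Q64.HC

/-- The families of CM types `Φ i` of the fields `E i` for which the statement
`NoncommutativeTimes` is false. -/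
def exceptionalFamilies {ι : Type} (E : ι → Type) [∀ i, Field (E i)] [∀ i, NumberField (E i)] :
    Set (∀ i, Set (E i →+* ℂ)) :=
  {Φ | (∀ i, IsCMType (Φ i)) ∧ ¬ NoncommutativeTimes Φ}

/-- **The noncommutative Hodge conjecture for the products of all admissible subcategories with the
abelian varieties of almost all CM types of all CM fields.** -/
theorem result :
    ∃ C : ℝ, 0 ≤ C ∧ ∀ (ι : Type) [Fintype ι] (E : ι → Type) [∀ i, Field (E i)]
      [∀ i, NumberField (E i)] [∀ i, IsCMField (E i)] (g p : ι → ℕ) (D : ι → ℝ),
      PairwiseIndep E → (∀ i, finrank ℚ (E i) = 2 * g i) →
      (∀ i, p i ∣ g i ∧ (p i = 1 ∨ (p i).Prime)) → (∀ i, 1 ≤ D i) →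
      (∀ (i : ι) (F : IntermediateField ℚ (E i)), IsCMField F → IsGalois ℚ F →
        ¬ IsAbelianGalois ℚ F → (finrank ℚ F : ℝ) ≤ D i) →
      ((exceptionalFamilies E).ncard : ℝ) ≤
        2 ^ (∑ i, g i) * ∑ i, C * ((1 + Real.log (2 * g i)) ^ 16 *
          min ((numCMSubfields (E i) : ℝ) ^ 2 * D i ^ (1 / 4 : ℝ) / √(g i))
            (√(g i) / p i)) := by
  obtain ⟨C, hC0, hC⟩ := count
  refine ⟨C, hC0, ?_⟩
  intro ι _ E _ _ _ g p D hE hg hp hD hDF
  exact hC ι E g p D hE hg hp hD hDF _ fun Φ hΦ hnd => noncommutativeTimes hΦ hE hnd

end Pool.Agent.Results.MP_43e44c_ag.AllCMTypesTimes
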