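import Pool.Agent.Q73.CM.Pair

/-!
# Hodge classes on products of admissible subcategories of K3 type with complex multiplication

Let `C i`, `i ∈ I`, be finitely many admissible subcategories `C i ⊂ D^perf(X i)` of the following kind:
the rational Hodge structure `K^top_*(C i) ⊗ ℚ` (`* = 0, 1`) is the sum of classes of objects of `C i` and of
a Hodge structure `T i` with complex multiplication by a CM field `E i`, one-dimensional over `E i`, such
that the part of `T i ⊗ ℂ` belonging to one embedding `σ₀ i` has a type `(p, q)` with `p - q = w i ≠ 0`,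
the part belonging to the complex conjugate of `σ₀ i` has the type `(q, p)`, and all the other parts
have types `(r, r)` (K3 type). Examples are `D^b(S)` for K3 surfaces `S` with complex multiplication
(`w i = 2`), the K3 categories of cubic fourfolds and of Gushel-Mukai varieties with complex
multiplication, and the derived categories of elliptic curves with complex multiplication (`w i = 1`).

For a product `C = C (t 1) ⊠ … ⊠ C (t n) ⊂ D^perf(X (t 1) × … × X (t n))`, with repetitions,
`K^top_*(C) ⊗ ℚ` is the tensor product of the `K^top_*(C (t k)) ⊗ ℚ`; the classes in it are, up to products with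
classes of objects, rational multilinear forms in variables `x k ∈ E (t k)` (we identify `T i` with its
dual, up to a shift of the types). Such a form is a Hodge class if the monomials `∏ σ k (x k)`
occurring in it have `∑ (p - q) = 0` (`IsHodge`).
-/

set_option autoImplicit false

namespace Pool.Agent.Results.MP_43e44c_ag.CMProducts

open NumberField

/-- the complex conjugate of an embedding -/
noncomputable def conj {K : Type} [Field K] [NumberField K] (σ : K →ₐ[ℚ] ℂ) : K →ₐ[ℚ] ℂ :=
  ((Complex.conjAe.restrictScalars ℚ : ℂ ≃ₐ[ℚ] ℂ) : ℂ →ₐ[ℚ] ℂ).comp σ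

open Classical in
/-- the difference `p - q` for the type `(p, q)` of the part belonging to `σ` of a structure of K3
type -/
noncomputable def diff {K : Type} [Field K] [NumberField K] (σ₀ : K →ₐ[ℚ] ℂ) (w : ℤ)
    (σ : K →ₐ[ℚ] ℂ) : ℤ :=
  if σ = σ₀ then w else if σ = conj σ₀ then -w else 0

section defs

variable {I : Type} {E : I → Type} [∀ i, Field (E i)] [∀ i, NumberField (E i)]
  (σ₀ : ∀ i, E i →ₐ[ℚ] ℂ) (w : I → ℤ)

/-- rational classes: multilinear forms in variables `x k ∈ E (t k)` -/
abbrev Form (E : I → Type) [∀ i, Field (E i)] [∀ i, NumberField (E i)] {n : ℕ} (t : Fin n → I) :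
    Type :=
  MultilinearMap ℚ (fun k => E (t k)) ℚ

/-- `φ` is a Hodge class: its complexification is a combination of monomials with
`∑ (p - q) = 0` -/
def IsHodge {n : ℕ} (t : Fin n → I) (φ : Form E t) : Prop :=
  ∃ c : (∀ k, E (t k) →ₐ[ℚ] ℂ) → ℂ, (∀ x, ((φ x : ℚ) : ℂ) = ∑ σ, c σ * ∏ k, σ k (x k)) ∧
    ∀ σ, c σ ≠ 0 → ∑ k, diff (σ₀ (t k)) (w (t k)) (σ k) = 0

/-- the same for bilinear forms on `E i × E j` -/
def IsHodgePairing (i j : I) (B : E i →ₗ[ℚ] E j →ₗ[ℚ] ℚ) : Prop :=
  ∃ c : (E i →ₐ[ℚ] ℂ) → (E j →ₐ[ℚ] ℂ) → ℂ,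
    (∀ x y, ((B x y : ℚ) : ℂ) = ∑ σ, ∑ σ', c σ σ' * (σ x * σ' y)) ∧
    ∀ σ σ', c σ σ' ≠ 0 → diff (σ₀ i) (w i) σ + diff (σ₀ j) (w j) σ' = 0

/-- `ψ` is a product over a perfect matching `τ` of the `n` variables, matching only variables that
belong to the same category (`t (τ k) = t k`), of bilinear forms that are Hodge classes -/
def IsProductOfPairings {n : ℕ} (t : Fin n → I) (ψ : Form E t) : Prop :=
  ∃ (τ : Equiv.Perm (Fin n)) (B : ∀ k, E (t k) →ₗ[ℚ] E (t (τ k)) →ₗ[ℚ] ℚ),
    (∀ k, τ (τ k) = k) ∧ (∀ k, τ k ≠ k) ∧ (∀ k, t (τ k) = t k) ∧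
    (∀ k, IsHodgePairing σ₀ w (t k) (t (τ k)) (B k)) ∧
    ∀ v, ψ v = ∏ k with k < τ k, B k (v k) (v (τ k))

/-- The images of the fields meet in real numbers: for all `i`, the numbers in `σ₀ i (E i)` and in
the compositum of the intersections, `j ≠ i`, of `σ₀ j (E j)` with the normal closure of `E i` are
real; or for all `i ≠ j` the numbers in `σ₀ i (E i)` and in `σ₀ j (E j)` are real, and the
`E i` are Galois over `ℚ` or there are at most two of them -/
def MeetInReal : Prop :=
  (∀ i, ∀ z ∈ (σ₀ i).fieldRange ⊓ ⨆ j ∈ {j | j ≠ i},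
    (⨆ σ : E i →ₐ[ℚ] ℂ, σ.fieldRange) ⊓ (σ₀ j).fieldRange, z.im = 0) ∨
  ((∀ i j, i ≠ j → ∀ z ∈ (σ₀ i).fieldRange ⊓ (σ₀ j).fieldRange, z.im = 0) ∧
    ((∀ i, IsGalois ℚ (E i)) ∨ Nat.card I ≤ 2))

end defs

/-- **Products of categories of K3 type with complex multiplication.** All Hodge classes on all
products, with repetitions, of the `C i` are combinations of products of Hodge classes on the
squares `C i ⊠ C i` (and of classes of objects). So the noncommutative Hodge conjecture holds for all
products of the `C i` if it holds for the squares `C i ⊠ C i`. -/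
theorem result {I : Type} [Finite I] {E : I → Type} [∀ i, Field (E i)] [∀ i, NumberField (E i)]
    [∀ i, IsCMField (E i)] (σ₀ : ∀ i, E i →ₐ[ℚ] ℂ) (w : I → ℤ) (hw : ∀ i, w i ≠ 0)
    (hreal : MeetInReal σ₀) {n : ℕ} (t : Fin n → I) (φ : Form E t) (hφ : IsHodge σ₀ w t φ) :
    φ ∈ Submodule.span ℚ {ψ | IsProductOfPairings σ₀ w t ψ} := by
  have h : ∀ i, ∀ z ∈ (σ₀ i).fieldRange ⊓ ⨆ j ∈ {j | j ≠ i},
      (⨆ σ : E i →ₐ[ℚ] ℂ, σ.fieldRange) ⊓ (σ₀ j).fieldRange, z.im = 0 := by
    rcases hreal with h | ⟨h1, h2⟩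
    · exact h
    · intro i z hz
      refine Pool.Agent.Q73.CM.mem_RR.1 (Pool.Agent.Q73.CM.real_of_pairwise σ₀
        (fun i j hij z hz => Pool.Agent.Q73.CM.mem_RR.2 (h1 i j hij z hz))
        (h2.imp_right fun h3 => ?_) i hz)
      intro i j k hij hik
      by_contra hjk
      cases nonempty_fintype I
      classical
      have h5 : ({i, j, k} : Finset I).card ≤ Fintype.card I := Finset.card_le_univ _
      rw [Finset.card_insert_of_notMem (by simp [hij, hik]),
        Finset.card_insert_of_notMem (by simp [hjk]), Finset.card_singleton] at h5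
      rw [Nat.card_eq_fintype_card] at h3
      omega
  exact Pool.Agent.Q73.CM.pairings σ₀ w hw h t φ hφ

end Pool.Agent.Results.MP_43e44c_ag.CMProducts
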