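import Mathlib
import Pool.Agent.Q64.HC.MPer

/-!
# The noncommutative Hodge conjecture for the products of all admissible subcategories with abelian
varieties with many algebraically independent periods

Let `C` be **any** admissible subcategory of the derived category of any smooth proper complex
variety `Y`, for instance one which is not equivalent to the derived category of a variety, and let
`K` be a subfield of the complex numbers which contains the periods of `C`: the entries of the
Hodge operator of `K^top (C) ⊗ ℚ`, the sum of `K_0^top` and `K_1^top`, for a rational basis. Let
`A = ℂ ^ g / (ℤ ^ g + Z ℤ ^ g)` be a principally polarized abelian variety with period matrix `Z`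
(every complex abelian variety is isogenous to such an abelian variety), and let `D` entries of `Z`
be algebraically independent over `K`.

Suppose that `A` is simple and `D > g ^ 2 / 4`, or that `D > g (g - 1) / 2 + 1 / 4`. Then **for all
`n` every rational Hodge class in `K_0^top (perf (A ^ n) ⊠ C)` is a sum of products `f ⊗ x` of a
combination `f` of products of divisor classes on `A ^ n` and a Hodge class `x` in `K_0^top (C)`.
So the noncommutative Hodge conjecture for `perf (A ^ n) ⊠ C` is equivalent to the noncommutative
Hodge conjecture for `C`; and if it holds for `C` then it holds for all admissible subcategories of
`perf (A ^ n) ⊠ C`** (`NCHodgeReduces`). There is no condition on the position of `A` in a family,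
no condition on the Hodge structure of `C`, and nothing is assumed on the conjecture for `C`. For
instance it holds for `perf (A ^ n) ⊠ C` for all components `C` of the derived categories of
varieties of dimension at most three. For a given `C` the field `K` can be chosen finitely
generated, hence countable, so that the period matrices `Z` of almost all abelian varieties, in the
sense of measure, are allowed, with `D = g (g + 1) / 2`.

The Hodge structure of `K^top (C) ⊗ ℚ` is given by `V : Coh v`, a rational space with a basis of
homogeneous elements and the Hodge operator `V.z`, which is the multiplication by `p - q`; by the
Künneth formula the one of `perf (A ^ n) ⊠ C` is `HAZ W v`, the forms on the homology `W` of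
`A ^ n` with values in `ℚ ^ v` (`IsHodgeOnProduct` says that a class is a Hodge class). The spans
of the classes of objects are given by `ObjectClasses`; the two properties used are that the
exterior product of a vector bundle on `A ^ n` and an object of `C` is an object of
`perf (A ^ n) ⊠ C`, and that its objects can be restricted to a point of `A ^ n`.

Relation to other results of this team: the theorem on Hodge classes used in the proof is the one
of `ManyPeriods` (MP_e12fcd_ag, helper63), stated there for varieties `Y`. `AllCMTypesTimes` (this
folder) is about abelian varieties with complex multiplication, which have algebraic periods, so
that the two theorems have no case in common. `CMProducts` (this folder) is about products of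
categories with complex multiplication.

The proof (of helper63's theorem). Derivations of the complex numbers over `K` which are dual to
the `D` independent entries of `Z` give a space of dimension `D` of derivatives of the Hodge
operator of `A`; the Hodge operator of `C` is constant. So these derivatives kill the Hodge classes
of the product; they are elements of the complexified Lie algebra of the Hodge group of `A`, which
is the full symplectic group of the endomorphism algebra if `D` is large. So the Hodge classes of
the product are invariant under this group, and hence sums of products of combinations of products
of divisor classes and Hodge classes of `C`. The exterior products of vector bundles and objects of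
`C` are objects of the product, and conversely an object of the product can be restricted to a
point.
-/

set_option autoImplicit false

namespace Pool.Agent.Results.MP_43e44c_ag.ManyPeriodsTimes

open Module Pool.Agent.W437.HC Pool.Agent.W437.HD Pool.Agent.TH504.CB Pool.Agent.TH131.GHC
  Pool.Agent.Q64.HC

/-- **The noncommutative Hodge conjecture for the products of all admissible subcategories with the
powers of an abelian variety with many algebraically independent periods.** Let `Z` be the period
matrix of the principally polarized abelian variety `A` of dimension `g`, let `V` be the Hodge
structure of `K^top (C) ⊗ ℚ`, with periods in the field `K`, and let the entries of `Z` with index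
in `s` be algebraically independent over `K`. If `A` is simple and the number `D` of elements of `s`
is larger than `g ^ 2 / 4`, or if `D` is larger than `g (g - 1) / 2 + 1 / 4`, then for all `n` the
Hodge classes of `perf (A ^ n) ⊠ C` are sums of products, and the noncommutative Hodge conjecture
for `perf (A ^ n) ⊠ C` is reduced to `C`. -/
theorem result {g : ℕ} (Z : Matrix (Fin g) (Fin g) ℂ) (hsymm : Z.transpose = Z)
    (hpos : (Z.map Complex.im).PosDef) {v : ℕ} (V : Coh v) (K : Subfield ℂ)
    (hK : ∀ a b, V.z a b ∈ K) (s : Finset (Fin g × Fin g))
    (hs : AlgebraicIndependent K fun a : s => Z a.1.1 a.1.2)
    (hD : IsSimpleAV Z ∧ g ^ 2 < 4 * s.card ∨ 2 * g ^ 2 + 1 < 4 * s.card + 2 * g) (n : ℕ) :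
    HodgeClassesSplit (perPow Z n) V ∧ NCHodgeReduces (perPow Z n) V :=
  manyPeriods Z hsymm hpos V K hK s hs hD n

end Pool.Agent.Results.MP_43e44c_ag.ManyPeriodsTimes
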